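import Pool.Agent.H39.HW.SBas

/-!
# Project HW, scheme side: part VG (the surplus of a part)
-/

set_option autoImplicit false
open Classical Finset

namespace Pool.Agent.H97.HW

open Pool.Agent.H39.HW Pool.Agent.H39.HW.Sc

theorem card_lab {st : ℕ → ℕ} (h : ∀ β, st β ≤ st (β + 1)) (T : Finset ℕ) :
    (lab st T).card = ∑ β ∈ T, ln st β := by
  unfold lab
  rw [Finset.card_biUnion]
  · apply Finset.sum_congr rfl
    intro β _
    simp [blk, ln]
  · intro i _ j _ hij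
    show Disjoint (blk st i) (blk st j)
    rw [Finset.disjoint_left]
    intro n h1 h2
    simp only [blk, Finset.mem_Ico] at h1 h2
    rcases lt_or_gt_of_ne hij with h' | h'
    · have h3 : st (i + 1) ≤ st j := monotone_nat_of_le_succ h h'
      omega
    · have h3 : st (j + 1) ≤ st i := monotone_nat_of_le_succ h h'
      omega

/-- one term -/
theorem term_bound {N Dt dem k kt κ : ℝ} (hN : 0 < N) (hDt : 0 < Dt) (hdem : 0 < dem)
    (hk : 0 ≤ k) (hκ : κ ≤ 1 / 2) (h : |kt - N * dem / Dt| ≤ κ * (N * dem / Dt)) :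
    0 < kt ∧ |dem * k / kt - Dt / N * k| ≤ 2 * κ * (Dt / N) * k := by
  have hK0 : 0 < N * dem / Dt := by positivity
  set K0 := N * dem / Dt with hK0d
  have h1 := abs_le.mp h
  have hkt : K0 / 2 ≤ kt := by nlinarith [h1.1]
  have hkt0 : 0 < kt := by linarith
  refine ⟨hkt0, ?_⟩
  have hde : dem = K0 * (Dt / N) := by
    rw [hK0d]; field_simp
  have e1 : dem * k / kt - Dt / N * k = (Dt / N * k) * ((K0 - kt) / kt) := by
    rw [hde]; field_simp
  have hDN : 0 ≤ Dt / N * k := by positivity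
  rw [e1, abs_mul, abs_of_nonneg hDN, abs_div, abs_of_pos hkt0]
  have h2 : |K0 - kt| / kt ≤ 2 * κ := by
    rw [div_le_iff₀ hkt0, abs_sub_comm]
    have hκ0 : 0 ≤ κ := by
      by_contra hc
      push Not at hc
      have := abs_nonneg (kt - K0)
      nlinarith
    nlinarith
  calc Dt / N * k * (|K0 - kt| / kt) ≤ Dt / N * k * (2 * κ) :=
        mul_le_mul_of_nonneg_left h2 hDN
    _ = 2 * κ * (Dt / N) * k := by ring

theorem t_VG (hB : S_BLK) (hK : S_KTB) (hR : S_KKR) (hT : S_TOT) (hW : S_WIN) (hC : S_CLD) :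
    S_VG := by
  intro x hx φ hφ s P hP a ha
  have haR : a ∈ x.R := ha
  have hP' : P < 2 * x.h := hP
  obtain ⟨hkP, hkt⟩ := hK x hx φ hφ a haR
  obtain ⟨hsum, -, hz, -⟩ := (hR x hx P hP').1 a haR
  obtain ⟨-, -, hmono, -, -, hmid, -, -⟩ := hB x hx
  obtain ⟨-, -, hcardS, -⟩ := hW x hx a haR
  obtain ⟨hcls, -, -, -, hdem⟩ := hC x hx a haR
  obtain ⟨hD1, hD2⟩ := hx.Dt_bounds hT haR
  have hTa := abs_le.mp (hT x hx a haR)
  have hθ := hx.t0
  have hμ := hx.m0
  have hh : (10000 : ℝ) ≤ x.h := by exact_mod_cast hx.hge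
  have hh0 : (0 : ℝ) < x.h := by linarith
  have ht : (0 : ℝ) < x.t := by
    have := hx.t1
    have : 0 < x.t := by omega
    exact_mod_cast this
  have hL : (8 * 10 ^ 8 : ℝ) ≤ x.L := by exact_mod_cast hx.Lge
  have hL0 : (0 : ℝ) < x.L := by linarith
  have hη := hx.eta_le
  have hDt : 0 < x.Dt a := by
    have : 0 < (1 - x.η) * x.θ := mul_pos (by linarith) hθ
    linarith
  -- labels of the reserved blocks
  have hlab : ((lab s.st (s.S P a)).card : ℝ) = x.q * x.v := by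
    have h1 : (lab s.st (s.S P a)).card = x.q * x.v := by
      have e0 : (lab s.st (s.S P a)).card = ∑ β ∈ x.S P a, ln x.st β := card_lab hmono _
      rw [e0]
      have : ∀ β ∈ x.S P a, ln x.st β = x.v := by
        intro β hβ
        unfold Prm.S at hβ
        rw [Finset.mem_filter] at hβ
        have h2 := hβ.1
        unfold Prm.mid at h2
        rw [Finset.mem_Ico] at h2
        exact hmid β h2.1 h2.2
      calc ∑ β ∈ x.S P a, ln x.st β = ∑ β ∈ x.S P a, x.v := Finset.sum_congr rfl this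
        _ = x.q * x.v := by rw [Finset.sum_const, hcardS P hP', smul_eq_mul]
    exact_mod_cast h1
  -- the sum of `k` over the classes
  have hsumk : ∑ β ∈ x.cls a, (x.kk P a β : ℝ) = x.t := by
    have h1 : ∑ β ∈ x.cls a, x.kk P a β = x.t := by
      rw [← hsum]
      apply Finset.sum_subset
      · intro β hβ
        rw [Finset.mem_range]
        exact ((hcls β).mp hβ).1
      · intro β _ hβ
        apply hz
        unfold Prm.uP Prm.u
        rw [if_neg hβ]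
        simp
    exact_mod_cast h1
  set N : ℝ := 2 * x.h * x.t with hNd
  have hN : 0 < N := by rw [hNd]; positivity
  set κ : ℝ := 1 / (10 ^ 4 * x.L ^ 2) with hκd
  have hκ : κ ≤ 1 / 2 := by
    rw [hκd, div_le_iff₀ (by positivity)]
    nlinarith
  have hκ0 : 0 < κ := by rw [hκd]; positivity
  have hdem0 : ∀ β ∈ x.cls a, 0 < x.dem a β := by
    intro β hβ
    have h1 := (hdem β hβ).1
    have : 0 < 3 / 10 * x.θ * x.μ := by positivity
    linarith
  have hterm : ∀ β ∈ x.cls a, 0 < ((s.kt a β : ℕ) : ℝ) ∧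
      |x.dem a β * (x.kk P a β : ℝ) / (s.kt a β : ℝ) - x.Dt a / N * (x.kk P a β : ℝ)| ≤
        2 * κ * (x.Dt a / N) * (x.kk P a β : ℝ) := by
    intro β hβ
    have h1 := hkt β hβ
    exact term_bound hN hDt (hdem0 β hβ) (Nat.cast_nonneg _) hκ h1
  -- rewrite the sum
  have hS : ∑ β ∈ s.cls x.p a, s.lo x.D a β * (s.k P a β : ℝ) / s.kt a β =
      ∑ β ∈ x.cls a, (s.ω * (x.kk P a β : ℝ) -
        x.dem a β * (x.kk P a β : ℝ) / (s.kt a β : ℝ)) := by
    apply Finset.sum_congr rfl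
    intro β hβ
    have h1 := (hterm β hβ).1
    have h2 : s.k P a β = x.kk P a β := hkP P hP' β
    rw [h2]
    have h3 : s.lo x.D a β = s.ω * s.kt a β - x.dem a β := rfl
    rw [h3]
    field_simp
  have hω : s.ω = x.θ / N := rfl
  rw [hS, Finset.sum_sub_distrib, ← Finset.mul_sum, hsumk, hlab, hω]
  have hE : |∑ β ∈ x.cls a, x.dem a β * (x.kk P a β : ℝ) / (s.kt a β : ℝ) -
      x.Dt a / N * x.t| ≤ 2 * κ * (x.Dt a / N) * x.t := by
    calc |∑ β ∈ x.cls a, x.dem a β * (x.kk P a β : ℝ) / (s.kt a β : ℝ) - x.Dt a / N * x.t|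
        = |∑ β ∈ x.cls a, (x.dem a β * (x.kk P a β : ℝ) / (s.kt a β : ℝ) -
            x.Dt a / N * (x.kk P a β : ℝ))| := by
          rw [Finset.sum_sub_distrib, ← Finset.mul_sum, hsumk]
      _ ≤ ∑ β ∈ x.cls a, |x.dem a β * (x.kk P a β : ℝ) / (s.kt a β : ℝ) -
            x.Dt a / N * (x.kk P a β : ℝ)| := Finset.abs_sum_le_sum_abs _ _
      _ ≤ ∑ β ∈ x.cls a, 2 * κ * (x.Dt a / N) * (x.kk P a β : ℝ) :=
          Finset.sum_le_sum fun β hβ => (hterm β hβ).2
      _ = 2 * κ * (x.Dt a / N) * x.t := by rw [← Finset.mul_sum, hsumk]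
  have hE' := abs_le.mp hE
  have e1 : x.θ / N * x.t = x.θ / (2 * x.h) := by rw [hNd]; field_simp
  have e2 : x.Dt a / N * x.t = x.Dt a / (2 * x.h) := by rw [hNd]; field_simp
  have e3 : 2 * κ * (x.Dt a / N) * x.t = κ * (x.Dt a / x.h) := by rw [hNd]; field_simp
  have he1 : s.e1 = x.θ / (10 ^ 3 * x.L ^ 2 * x.h) := rfl
  rw [e1, he1]
  rw [e2, e3] at hE'
  -- the numbers
  have hq : (x.q : ℝ) * x.v / x.D = (2 * x.h * x.q * ((x.v : ℝ) / x.D)) / (2 * x.h) := by
    field_simp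
  have b1 : |(x.θ - x.Dt a) / (2 * x.h) - (x.q : ℝ) * x.v / x.D| ≤ 10 * x.μ / x.h := by
    rw [hq, ← sub_div, abs_div, abs_of_pos (by positivity : (0 : ℝ) < 2 * x.h),
      div_le_div_iff₀ (by positivity) hh0]
    have : |x.θ - x.Dt a - 2 * x.h * x.q * ((x.v : ℝ) / x.D)| ≤ 20 * x.μ := by
      rw [abs_le]
      constructor <;> linarith [hTa.1, hTa.2]
    nlinarith
  have b2 : κ * (x.Dt a / x.h) ≤ x.θ / (10 ^ 4 * x.L ^ 2 * x.h) := by
    rw [hκd]
    have : 1 / (10 ^ 4 * (x.L : ℝ) ^ 2) * (x.Dt a / x.h) = x.Dt a / (10 ^ 4 * x.L ^ 2 * x.h) := by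
      field_simp
    rw [this]
    exact div_le_div_of_nonneg_right hD2 (by positivity)
  have b3 : 10 * x.μ / x.h ≤ x.θ / (10 ^ 4 * x.L ^ 2 * x.h) := by
    rw [div_le_div_iff₀ hh0 (by positivity)]
    have hu := hx.u1
    have hεθ : x.ε * x.θ ≤ x.θ := by
      have := hx.e1
      nlinarith
    have hL2 : (x.L : ℝ) ^ 2 ≤ (x.L : ℝ) ^ 4 :=
      pow_le_pow_right₀ (by linarith) (by norm_num)
    have h5 : 10 ^ 5 * ((x.L : ℝ) ^ 2 * x.μ) ≤ x.θ := by
      have h6 : (x.L : ℝ) ^ 2 * x.μ ≤ (x.L : ℝ) ^ 4 * x.μ :=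
        mul_le_mul_of_nonneg_right hL2 hμ.le
      have h7 : 0 ≤ (x.L : ℝ) ^ 4 * x.μ := by positivity
      nlinarith
    have h8 := mul_le_mul_of_nonneg_right h5 hh0.le
    nlinarith
  have b4 : x.θ / (10 ^ 3 * x.L ^ 2 * x.h) = 10 * (x.θ / (10 ^ 4 * x.L ^ 2 * x.h)) := by
    field_simp
  have b5 : 0 ≤ x.θ / (10 ^ 4 * x.L ^ 2 * x.h) := by positivity
  have b6 : (x.θ - x.Dt a) / (2 * x.h) = x.θ / (2 * x.h) - x.Dt a / (2 * x.h) := by
    rw [sub_div]
  rw [b6] at b1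
  have b1' := abs_le.mp b1
  rw [b4, abs_le]
  constructor <;> linarith [b1'.1, b1'.2, hE'.1, hE'.2]

end Pool.Agent.H97.HW
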